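import Mathlib
import Pool.Agent.V5helper2.PC.Fin3

set_option autoImplicit false

/-!
# The parity changes in the sorted list of a cycle of the 3x+1 map

Write the elements of a cycle `Z` of `T` in increasing order and let `A` be the number of the places where two
neighbours have different parity. Let `x < x'` be neighbours of `Z` in an interval `[u, u + 2 ^ r)`, and let all
differences of elements of `Z` be less than `2 ^ n`. As `2 ^ n` does not divide `x' - x`, there is a first
`i < n` such that `T^i x` and `T^i x'` have different parity, and then a parity change of the sorted list lies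
between them. Given `i`, the number of the odd steps and the place of the change, `x` is determined up to an
interval which is much shorter than the given one, unless an earlier iterate is small, and then again this
iterate lies in a shorter interval. So an interval of length `2 ^ r` contains at most `9 m ^ 2 (A + 1)` times as
many elements as the best interval of length about `2 ^ (r / 2)`, with `m` of the order of `A + log (min |x|)`.
After `log_2 m` steps `L ≤ 64 m ^ 2 (9 m ^ 2 (A + 1)) ^ (log_2 m)`: the length of a cycle is at most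
quasi-polynomial in the number of its parity changes.
-/

namespace Pool.Agent.Results.MP_edb5be_nt.ParityChanges

open Finset

/-- The 3x+1 map. -/
def T (x : ℤ) : ℤ := if x % 2 = 0 then x / 2 else (3 * x + 1) / 2

/-- `Z` is a cycle of `T`. -/
def IsCycle (Z : Finset ℤ) : Prop :=
  ∃ (x : ℤ) (p : ℕ), 1 ≤ p ∧ T^[p] x = x ∧ Z = (Finset.range p).image fun i => T^[i] x

/-- The number of the parity changes: the number of the pairs of elements of `Z` which are neighbours in the
increasing order of `Z` and have different parity. -/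
def changes (Z : Finset ℤ) : ℕ :=
  ((Z ×ˢ Z).filter fun p =>
    p.1 < p.2 ∧ (∀ z ∈ Z, ¬ (p.1 < z ∧ z < p.2)) ∧ p.1 % 2 ≠ p.2 % 2).card

theorem changes_eq (Z : Finset ℤ) : changes Z = (Pool.Agent.V5helper2.PC.chg Z).card := by
  unfold changes Pool.Agent.V5helper2.PC.chg
  congr 1

/-- (1) There is `c > 0` such that for every cycle `Z` of `T`, with `L` elements and `A` parity changes,
`A + 1 ≥ c exp (sqrt (log L / 5))`; for each `A` there are only finitely many cycles with at most `A` parity
changes. (2) If some element of `Z` has absolute value less than `2 ^ ν`, then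
`log L ≤ 5 (1 + log (2 A + 2 ν + 13)) ^ 2`. (3) All `x, z` in `Z` satisfy `|z| ≤ 2 ^ (A + 1) |x|`. -/
theorem result :
    (∃ c : ℝ, 0 < c ∧ ∀ Z : Finset ℤ, IsCycle Z →
      c * Real.exp (Real.sqrt (Real.log Z.card / 5)) ≤ changes Z + 1) ∧
    (∀ A : ℕ, {Z : Finset ℤ | IsCycle Z ∧ changes Z ≤ A}.Finite) ∧
    (∀ Z : Finset ℤ, IsCycle Z → ∀ x ∈ Z, ∀ ν : ℕ, |x| < 2 ^ ν →
      Real.log Z.card ≤ 5 * (1 + Real.log (2 * changes Z + 2 * ν + 13)) ^ 2) ∧
    (∀ Z : Finset ℤ, IsCycle Z → ∀ x ∈ Z, ∀ z ∈ Z, |z| ≤ 2 ^ (changes Z + 1) * |x|) := by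
  refine ⟨?_, ?_, ?_, ?_⟩
  · obtain ⟨c, hc, h⟩ := Pool.Agent.V5helper2.PC.main_two
    exact ⟨c, hc, fun Z hZ => by rw [changes_eq]; exact h Z hZ⟩
  · intro A
    refine Set.Finite.subset (Pool.Agent.V5helper2.PC.finite_chg A) ?_
    rintro Z ⟨hZ, hA⟩
    rw [changes_eq] at hA
    exact ⟨hZ, hA⟩
  · intro Z hZ x hx ν hν
    rw [changes_eq]
    set A := (Pool.Agent.V5helper2.PC.chg Z).card with hA
    have hmain := Pool.Agent.V5helper2.PC.real_count2 (a := 3) (b := 1) (by norm_num) (by norm_num)
      (by norm_num) (Pool.Agent.V5helper2.PC.cyc_one hZ) (γ := 1) (β := 1) (ν := ν)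
      (m := 2 * ((1 * (A + 1)) + 1 + ν) + 9) (H := 1 * (A + 1)) (by norm_num) (by norm_num) hx hν rfl rfl
      le_rfl
    rw [Int.cast_one, abs_one, Real.log_one, zero_add] at hmain
    have hm1 : (((2 * ((1 * (A + 1)) + 1 + ν) + 9 : ℕ)) : ℝ) = 2 * (A : ℝ) + 2 * ν + 13 := by
      push_cast
      ring
    rw [hm1] at hmain
    exact hmain
  · intro Z hZ x hx z hz
    rw [changes_eq]
    by_cases h0 : (0 : ℤ) ∈ Z
    · have hc0 : Pool.Agent.H547R3.IsCycle ({0} : Finset ℤ) := ⟨0, 1, by norm_num, by decide, by decide⟩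
      have hZ0 : Z = {0} := Pool.Agent.H547R3.IsCycle.eq_of_mem hZ hc0 h0 (by simp)
      rw [hZ0, mem_singleton] at hx hz
      rw [hx, hz, abs_zero, mul_zero]
    · exact Pool.Agent.V5helper2.PC.max_one hZ hx hz h0

end Pool.Agent.Results.MP_edb5be_nt.ParityChanges
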