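import Pool.Agent.V5helper8.RC.Main

/-!
# The cycles of the 3x+1 map in residue classes modulo an arbitrary integer

Let `R` be a set of `W` residue classes modulo `M`, where `M` is any integer with `M ≥ 2 * 9 ^ W`. Every
trajectory which stays in `R` from some time on ends in a cycle with at most `W` elements. So a cycle
with `p` elements meets at least `min (p, log (M / 2) / (2 log 3))` residue classes modulo `M`, for every
`M`; there is no condition on the prime factors of `M`. Moreover every cycle has many elements
outside `R`: for every `C` their number is at least `(C log p - A) / (2 W + 1) - 1` for bounded `W`, and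
at least `p / ((2 W + 1) (ε log (B + 1) + C' (W + 2))) - 1` if all elements have absolute value at
most `B`. So for given `W` and `e` only finitely many cycles have at most `e` elements outside some
set of `W` classes modulo some `M ≥ 2 * 9 ^ W`.

Method. Regard the steps of the trajectory in `R` as the edges of a directed graph whose vertices are
the residue classes. Suppose that two closed walks begin at the same class with different steps,
and let `N c = b` and `N' c = b'` in `ℤ/M` be the equations of the closed walks, where `N`, `N'` are
differences of powers of two and three. Then `N b' - N' b` is a multiple of `M`; it is not zero, and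
less than `2 * 9 ^ W` if the walks are as short as possible. So for `M ≥ 2 * 9 ^ W` there is no branching
inside closed walks. Hence a piece of the trajectory in `R` is a concatenation of at most `2 W` pieces
with periods at most `W`, and one can use the theorems `PiecesPerLog` and `ShortCircuits` of the
starting files (p-adic subspace theorem).
-/

set_option autoImplicit false

namespace Pool.Agent.Results.MP_edb5be_nt.ResidueClasses

/-- The `3x+1` map on the integers. -/
def T (x : ℤ) : ℤ := if x % 2 = 0 then x / 2 else (3 * x + 1) / 2

/-- `Z` is a cycle of `T`. -/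
def IsCycle (Z : Finset ℤ) : Prop :=
  ∃ (x : ℤ) (p : ℕ), 1 ≤ p ∧ T^[p] x = x ∧ Z = (Finset.range p).image fun i => T^[i] x

/-- The residue classes modulo `M` which contain elements of `Z`. -/
def classes (M : ℕ) (Z : Finset ℤ) : Finset (ZMod M) := Z.image fun x : ℤ => (x : ZMod M)

/-- The elements of `Z` which are not in one of the residue classes in `R`. -/
def outside {M : ℕ} (R : Finset (ZMod M)) (Z : Finset ℤ) : Finset ℤ :=
  Z.filter fun x => (x : ZMod M) ∉ R

/-- Let `M` be an integer and `R` a set of residue classes modulo `M` with `2 * 9 ^ |R| ≤ M`.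
(1) Every trajectory of the `3x+1` map which stays in `R` from some time on enters a cycle with at
most `|R|` elements.
(2) For every cycle and every `M` the elements are pairwise incongruent modulo `M` or the number `W`
of the classes which contain elements satisfies `M < 2 * 9 ^ W`.
(3) For every `C > 0` there is `A` such that the number `e` of the elements outside `R` of a cycle with
`p` elements satisfies `C log (p / (|R| + 1 + (1 + log p) ^ 2)) ≤ (e + 1) (2 |R| + 1) + A`.
(4) For every `ε > 0` there is `C` such that if all elements of the cycle have absolute value at most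
`B` then `p ≤ (e + 1) (2 |R| + 1) (ε log (B + 1) + C (|R| + 2))`.
(5) For all `W` and `E` there are only finitely many cycles which have, for some `M` and some such
`R` with at most `W` classes, at most `E` elements outside `R`. -/
theorem result :
    (∀ (M : ℕ) (R : Finset (ZMod M)) (x : ℤ), 2 * 9 ^ R.card ≤ M →
      (∃ n₀, ∀ n, n₀ ≤ n → ((T^[n] x : ℤ) : ZMod M) ∈ R) →
      ∃ Z, IsCycle Z ∧ Z.card ≤ R.card ∧ ∃ n, T^[n] x ∈ Z) ∧
    (∀ (M : ℕ) (Z : Finset ℤ), IsCycle Z →
      (classes M Z).card = Z.card ∨ M < 2 * 9 ^ (classes M Z).card) ∧
    (∀ C : ℝ, 0 < C → ∃ A : ℝ, ∀ (Z : Finset ℤ) (M : ℕ) (R : Finset (ZMod M)), IsCycle Z →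
      2 * 9 ^ R.card ≤ M →
      C * Real.log (Z.card / (R.card + 1 + (1 + Real.log Z.card) ^ 2)) ≤
        ((outside R Z).card + 1) * (2 * R.card + 1) + A) ∧
    (∀ ε : ℝ, 0 < ε → ∃ C : ℝ, ∀ (Z : Finset ℤ) (M : ℕ) (R : Finset (ZMod M)) (B : ℝ),
      IsCycle Z → 2 * 9 ^ R.card ≤ M → (∀ x ∈ Z, |(x : ℝ)| ≤ B) →
      (Z.card : ℝ) ≤ ((outside R Z).card + 1) * (2 * R.card + 1) *
        (ε * Real.log (B + 1) + C * (R.card + 2))) ∧
    (∀ W E : ℕ, {Z : Finset ℤ | IsCycle Z ∧ ∃ (M : ℕ) (R : Finset (ZMod M)),
      R.card ≤ W ∧ 2 * 9 ^ R.card ≤ M ∧ (outside R Z).card ≤ E}.Finite) :=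
  ⟨fun _ _ _ hR h => Pool.Agent.V5helper8.RC.traj_cycle hR h,
    fun _ _ hZ => Pool.Agent.V5helper8.RC.classes hZ,
    Pool.Agent.V5helper8.RC.out_log, Pool.Agent.V5helper8.RC.out_size,
    Pool.Agent.V5helper8.RC.finite_few⟩

end Pool.Agent.Results.MP_edb5be_nt.ResidueClasses
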