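import Mathlib
import Pool.Agent.V5helper76.SP.Cyc

/-!
# The parts of the elements of 3x+1 cycles which are composed of given primes

Let `S` be a finite set of primes and `f` a nonzero polynomial with integer coefficients. In all but
finitely many cycles of the 3x+1 map the values of `f` have negligible `S`-parts, both on logarithmic average
and for almost all elements.

Method: for the elements `x` of a residue class modulo `2 ^ m` the numbers `2 ^ j T^j x`, `j < m`, are linear
polynomials in `x`. The product of the corresponding transforms of an irreducible polynomial `g` is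
squarefree, because an affine map `x ↦ (3 ^ o x + c) / 2 ^ j` maps no finite set to itself except its fixed point.
So Ridout's theorem bounds the `S`-part of the product of `m` successive values by `C |x| ^ (2 + ε)`, whatever
`m` is.
-/

set_option autoImplicit false

namespace Pool.Agent.Results.MP_edb5be_nt.SParts

open Polynomial Finset

/-- The 3x+1 map on the integers. -/
def T (x : ℤ) : ℤ := if x % 2 = 0 then x / 2 else (3 * x + 1) / 2

/-- `Z` is a cycle of `T`. -/
def IsCycle (Z : Finset ℤ) : Prop :=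
  ∃ (x : ℤ) (p : ℕ), 1 ≤ p ∧ T^[p] x = x ∧ Z = (Finset.range p).image fun i => T^[i] x

/-- The `S`-part of the integer `y`: the largest divisor of `y` composed of primes in `S` (and `1` for
`y = 0`). -/
def sPart (S : Finset ℕ) (y : ℤ) : ℕ := ∏ p ∈ S, p ^ y.natAbs.factorization p

/-- The number of odd terms among `x, T x, …, T^(j-1) x`. -/
def odds (x : ℤ) (j : ℕ) : ℕ := ((Finset.range j).filter fun i => T^[i] x % 2 = 1).card

/-- `x` is fresh for `f`: no rational root `r` of `f` is the fixed point of the affine map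
`y ↦ (3 ^ o y + c) / 2 ^ j` which maps `x` to `T^j x`, for any `j ≥ 1` (`o` is the number of odd terms among
`x, …, T^(j-1) x`). -/
def Fresh (f : ℤ[X]) (x : ℤ) : Prop :=
  ∀ j : ℕ, 1 ≤ j → ∀ r : ℚ, aeval r f = 0 → (2 : ℚ) ^ j * (T^[j] x - r) ≠ 3 ^ odds x j * (x - r)

lemma T_eq : T = Pool.Agent.V5helper5.SQ.T := rfl

lemma odds_eq (x : ℤ) (j : ℕ) : odds x j = Pool.Agent.V5helper5.SQ.od j x := by
  unfold odds
  rw [T_eq]
  induction j with
  | zero => simp [Pool.Agent.V5helper5.SQ.od]
  | succ j ih =>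
    rw [Pool.Agent.V5helper5.SQ.od, ← ih, Finset.range_add_one, Finset.filter_insert]
    by_cases h1 : Pool.Agent.V5helper5.SQ.T^[j] x % 2 = 0
    · rw [if_neg (by omega), if_pos h1, add_zero]
    · rw [if_pos (by omega), if_neg h1, Finset.card_insert_of_notMem (by simp)]

lemma fresh_iff (f : ℤ[X]) (x : ℤ) : Fresh f x ↔ Pool.Agent.V5helper76.SP.Fre f x := by
  unfold Fresh Pool.Agent.V5helper76.SP.Fre
  rw [T_eq]
  simp only [odds_eq]

lemma sPart_eq (S : Finset ℕ) (y : ℤ) :
    Real.log (sPart S y) = Pool.Agent.V5helper76.SP.Lam S y := rfl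

lemma sPart_pos {S : Finset ℕ} (hS : ∀ p ∈ S, p.Prime) (y : ℤ) : 0 < sPart S y :=
  Finset.prod_pos fun p hp => pow_pos (hS p hp).pos _

open Classical in
lemma phi_sum (S : Finset ℕ) (f : ℤ[X]) {ι : Type*} (A : Finset ι) (F : ι → ℤ) :
    ∑ i ∈ A, Pool.Agent.V5helper76.SP.phi S f (F i) =
      ∑ i ∈ A with Fresh f (F i), Real.log (sPart S (f.eval (F i))) := by
  rw [Finset.sum_filter]
  refine Finset.sum_congr rfl fun i _ => ?_
  unfold Pool.Agent.V5helper76.SP.phi
  by_cases h : Fresh f (F i)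
  · rw [if_pos h, if_pos ((fresh_iff _ _).1 h), sPart_eq]
  · rw [if_neg h, if_neg (fun h' => h ((fresh_iff _ _).2 h'))]

open Classical in
lemma ind_sum {S : Finset ℕ} (hS : ∀ p ∈ S, p.Prime) (f : ℤ[X]) (ε : ℝ) {ι : Type*} (A : Finset ι)
    (F : ι → ℤ) (hF : ∀ i ∈ A, F i ≠ 0) :
    ∑ i ∈ A, Pool.Agent.V5helper76.SP.ind S f ε (F i) =
      ((A.filter fun i => Fresh f (F i) ∧ |(F i : ℝ)| ^ ε ≤ sPart S (f.eval (F i))).card : ℝ) := by
  rw [Finset.card_filter]
  push_cast
  refine Finset.sum_congr rfl fun i hi => ?_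
  unfold Pool.Agent.V5helper76.SP.ind
  have h0 : 0 < |(F i : ℝ)| := abs_pos.2 (by exact_mod_cast hF i hi)
  have hs : (0 : ℝ) < sPart S (f.eval (F i)) := by exact_mod_cast sPart_pos hS _
  have h1 : Pool.Agent.V5helper76.SP.Bad S f ε (F i) ↔
      (Fresh f (F i) ∧ |(F i : ℝ)| ^ ε ≤ sPart S (f.eval (F i))) := by
    unfold Pool.Agent.V5helper76.SP.Bad
    rw [fresh_iff, ← sPart_eq, ← Real.log_rpow h0,
      Real.log_le_log_iff (Real.rpow_pos_of_pos h0 _) hs]
  by_cases h : (Fresh f (F i) ∧ |(F i : ℝ)| ^ ε ≤ sPart S (f.eval (F i)))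
  · rw [if_pos h, if_pos (h1.2 h)]
  · rw [if_neg h, if_neg (fun h' => h (h1.1 h'))]

lemma cycle_ne {Z : Finset ℤ} (hZ : IsCycle Z) (hc : 2 ≤ Z.card) : ∀ y ∈ Z, y ≠ 0 := by
  rintro y hy rfl
  obtain ⟨x, hp1, hx, hinj, himg, _⟩ := Pool.Agent.V5helper5.SQ.cyc_data (Z := Z) hZ
  set p := Z.card with hp
  have hx0 : x ≠ 0 := by
    intro h0
    have := Pool.Agent.V5helper76.SP.zero_card (Z := Z) hx hinj h0
    omega
  rw [himg] at hy
  obtain ⟨t, _, ht0⟩ := Finset.mem_image.1 hy
  exact Pool.Agent.V5helper76.SP.iter_ne hx0 t ht0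

open Classical in
/-- **Main theorem.** Let `S` be a finite set of primes, `f` a nonzero polynomial with integer coefficients and
`ε > 0`.

(1) For all but finitely many cycles, the product of the `S`-parts of the numbers `f y`, `y` a fresh element of
the cycle, is at most `P ^ ε`, where `P` is the product of the absolute values of the odd elements.

(2) For all but finitely many cycles, the `S`-part of `f y` is at least `|y| ^ ε` for at most `ε p` fresh
elements `y`, where `p` is the length of the cycle.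

(3), (4) The same for pieces of trajectories.

(5) The freshness for a linear polynomial `X - k`: `y` is fresh if and only if there is no `j ≥ 1` with
`T^j k = k` and `y ≡ k` modulo `2 ^ j`. So all integers are fresh if `k` is not periodic, and the fresh integers
are the odd ones for `k = 0`. If `f` has no rational root then all integers are fresh. -/
theorem result (S : Finset ℕ) (hS : ∀ p ∈ S, p.Prime) (f : ℤ[X]) (hf : f ≠ 0) (ε : ℝ) (hε : 0 < ε) :
    {Z : Finset ℤ | IsCycle Z ∧ (∏ y ∈ Z with y % 2 = 1, |(y : ℝ)|) ^ ε <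
      ∏ y ∈ Z with Fresh f y, (sPart S (f.eval y) : ℝ)}.Finite ∧
    {Z : Finset ℤ | IsCycle Z ∧ ε * Z.card <
      ((Z.filter fun y => Fresh f y ∧ |(y : ℝ)| ^ ε ≤ sPart S (f.eval y)).card : ℝ)}.Finite ∧
    (∃ K : ℝ, ∀ (x : ℤ) (n : ℕ), x ≠ 0 →
      ∑ t ∈ range n with Fresh f (T^[t] x), Real.log (sPart S (f.eval (T^[t] x))) ≤
        ε * ∑ t ∈ range n, Real.log |(T^[t] x : ℝ)| + K * (Real.log |(x : ℝ)| + n)) ∧
    (∃ K : ℝ, ∀ (x : ℤ) (n : ℕ), x ≠ 0 → Set.InjOn (fun i => T^[i] x) (range n : Finset ℕ) →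
      (((range n).filter fun t => Fresh f (T^[t] x) ∧
        |(T^[t] x : ℝ)| ^ ε ≤ sPart S (f.eval (T^[t] x))).card : ℝ) ≤ ε * n + K) ∧
    (∀ k y : ℤ, Fresh (X - C k) y ↔ ∀ j : ℕ, 1 ≤ j → T^[j] k = k → ¬ (2 : ℤ) ^ j ∣ y - k) := by
  refine ⟨?_, ?_, ?_, ?_, ?_⟩
  · apply ((Pool.Agent.V5helper76.SP.cyc_sum hS hf hε).union
      (Pool.Agent.V5helper5.SQ.finite_small 1)).subset
    rintro Z ⟨hZ, hlt⟩
    rcases Nat.lt_or_ge 1 Z.card with hc | hc
    · left
      refine ⟨hZ, ?_⟩
      have hne := cycle_ne hZ hc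
      have h1 : ∑ y ∈ Z, Pool.Agent.V5helper76.SP.phi S f y =
          Real.log (∏ y ∈ Z with Fresh f y, (sPart S (f.eval y) : ℝ)) := by
        rw [phi_sum S f Z (fun y => y), Real.log_prod]
        intro y _
        exact_mod_cast (sPart_pos hS _).ne'
      have h2 : ε * ∑ y ∈ Z, (if y % 2 = 0 then 0 else Real.log |(y : ℝ)|) =
          Real.log ((∏ y ∈ Z with y % 2 = 1, |(y : ℝ)|) ^ ε) := by
        rw [Real.log_rpow, Real.log_prod]
        · congr 1
          rw [Finset.sum_filter]
          refine Finset.sum_congr rfl fun y _ => ?_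
          by_cases h : y % 2 = 0
          · rw [if_pos h, if_neg (by omega)]
          · rw [if_neg h, if_pos (by omega)]
        · intro y hy
          exact abs_ne_zero.2 (by exact_mod_cast hne y (Finset.mem_filter.1 hy).1)
        · refine Finset.prod_pos fun y hy => ?_
          exact abs_pos.2 (by exact_mod_cast hne y (Finset.mem_filter.1 hy).1)
      rw [h1, h2]
      refine Real.log_lt_log ?_ hlt
      apply Real.rpow_pos_of_pos
      refine Finset.prod_pos fun y hy => ?_
      exact abs_pos.2 (by exact_mod_cast hne y (Finset.mem_filter.1 hy).1)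
    · right
      exact ⟨hZ, hc⟩
  · apply ((Pool.Agent.V5helper76.SP.cyc_count hS hf hε).union
      (Pool.Agent.V5helper5.SQ.finite_small 1)).subset
    rintro Z ⟨hZ, hlt⟩
    rcases Nat.lt_or_ge 1 Z.card with hc | hc
    · left
      refine ⟨hZ, ?_⟩
      rw [ind_sum hS f ε Z (fun y => y) (cycle_ne hZ hc)]
      exact hlt
    · right
      exact ⟨hZ, hc⟩
  · obtain ⟨K, _, h⟩ := Pool.Agent.V5helper76.SP.traj_sum hS hf hε
    refine ⟨K, fun x n hx => ?_⟩
    have := h x n hx
    rw [phi_sum S f (range n) (fun t => Pool.Agent.V5helper5.SQ.T^[t] x)] at this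
    exact this
  · obtain ⟨K, _, h⟩ := Pool.Agent.V5helper76.SP.traj_count hS hf hε
    refine ⟨K, fun x n hx hinj => ?_⟩
    have := h x n hx hinj
    rw [ind_sum hS f ε (range n) (fun t => Pool.Agent.V5helper5.SQ.T^[t] x)
      (fun t _ => Pool.Agent.V5helper76.SP.iter_ne hx t)] at this
    exact this
  · intro k y
    have hroot : ∀ r : ℚ, aeval r (X - C k : ℤ[X]) = 0 ↔ r = k := by
      intro r
      rw [map_sub, aeval_X, aeval_C, sub_eq_zero]
      simp
    constructor
    · intro h j hj hk hdvd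
      refine h j hj k ((hroot k).2 rfl) ?_
      obtain ⟨h1, h2⟩ := Pool.Agent.V5helper5.SQ.congr_branch hdvd j le_rfl
      have e1 := Pool.Agent.V5helper5.SQ.branch y j
      have e2 := Pool.Agent.V5helper5.SQ.branch k j
      rw [← h1, ← h2] at e2
      rw [odds_eq]
      rw [T_eq] at hk ⊢
      rw [hk] at e2
      have e3 : (2 : ℤ) ^ j * (Pool.Agent.V5helper5.SQ.T^[j] y - k) =
          3 ^ Pool.Agent.V5helper5.SQ.od j y * (y - k) := by linarith
      exact_mod_cast e3
    · intro h j hj r hr heq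
      rw [hroot] at hr
      subst hr
      have e1 : Pool.Agent.V5helper5.SQ.ek j y k = 0 := by
        rw [← Pool.Agent.V5helper5.SQ.branch_k]
        rw [odds_eq] at heq
        rw [T_eq] at heq
        have : (2 : ℤ) ^ j * (Pool.Agent.V5helper5.SQ.T^[j] y - k) =
          3 ^ Pool.Agent.V5helper5.SQ.od j y * (y - k) := by exact_mod_cast heq
        linarith
      obtain ⟨e2, e3⟩ := Pool.Agent.V5helper5.SQ.ek_zero e1
      exact h j hj e2 e3

end Pool.Agent.Results.MP_edb5be_nt.SParts
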