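import Mathlib
import Pool.Agent.V5helper5.SQ2.Cyc

/-!
# Squarefree parts of the elements of 3x+1 cycles

The odd elements of a cycle of length `p` have at least `p ^ (1 / 3 - o(1))` different squarefree parts, and
at least `p ^ (1 / 2 - o(1))` different cubefree parts; `p ^ c` given squarefree parts (`c < 1 / 3`) account for
at most `C p / log p` odd elements; almost all elements of the cycle are further than `p ^ d` (`d < 1 / 3`) from
all odd perfect powers of a given exponent. All this is a special case of a theorem on the terms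
`y = k + s a ^ m` of trajectories, where `(k, s)` is in a given set `P` of pairs.

Method: a window of `w = δ log p` steps. If three terms `x, T^i x, T^j x` (`0 < i < j ≤ w`) are of this form
then `a` solves simultaneously two equations `Q b ^ m - R a ^ m = e`, `Q' c ^ m - R' a ^ m = e'` whose
coefficients are determined by `x` modulo `2 ^ w` and by the three pairs; `e` and `e'` are small and
independent of the size of the multipliers. For `m ≥ 3` one such equation, for `m = 2` the pair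
of equations has the gap principle `a₁ a₂ ≤ E a₃` for any three solutions `a₁ < a₂ < a₃`, hence only
`O(log log a)` solutions up to `a`. The number of the classes is a power of `p` less than one.
-/

set_option autoImplicit false

namespace Pool.Agent.Results.MP_edb5be_nt.SquarefreeParts

open Finset

/-- The 3x+1 map on the integers. -/
def T (x : ℤ) : ℤ := if x % 2 = 0 then x / 2 else (3 * x + 1) / 2

/-- `Z` is a cycle of `T`. -/
def IsCycle (Z : Finset ℤ) : Prop :=
  ∃ (x : ℤ) (p : ℕ), 1 ≤ p ∧ T^[p] x = x ∧ Z = (Finset.range p).image fun i => T^[i] x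

/-- `y = k + s a ^ m` for an integer `a` and a pair `(k, s)` in `P` with `s ≠ 0`, and `2 ^ i` does not divide
`y - k` when `i ≥ 1` and `T^i k` is also the first coordinate of a pair in `P`. (The last condition holds if
`y - k` is odd, and if no forward iterate `T^i k`, `i ≥ 1`, is a first coordinate.) -/
def Special (P : Finset (ℤ × ℤ)) (m : ℕ) (y : ℤ) : Prop :=
  ∃ k s a : ℤ, (k, s) ∈ P ∧ s ≠ 0 ∧ y = k + s * a ^ m ∧
    ∀ i : ℕ, 1 ≤ i → (∃ s' : ℤ, (T^[i] k, s') ∈ P) → ¬ (2 : ℤ) ^ i ∣ y - k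





lemma admissible {r m₀ m : ℕ} (h : (m₀ = 2 ∧ r = 3) ∨ (m₀ = 3 ∧ r = 2)) (hm : m₀ ≤ m) :
    (r = 2 ∨ r = 3) ∧ 5 ≤ m + r ∧ 2 ≤ m := by omega



/-- **Main theorem.** Let `r = 3` for the exponents `m ≥ m₀ = 2`, or `r = 2` for the exponents `m ≥ m₀ = 3`.

(1) Let `c, d ≥ 0`, `ε > 0`, `r c + ε < 1`, `c + (r - 1) d < 1`. There is `C` such that for all `m ≥ m₀` and
every set `P` of at most `n ^ c` pairs of integers with first coordinates of size at most `n ^ d`, at most
`C n / log n` of the first `n ≥ 2` terms of a trajectory of `T` are special for `P` and `m`, if these terms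
are different from each other and the first one has size at most `exp (exp (n ^ ε))`.

(2) Let `r c < 1`, `c + (r - 1) d < 1`. There is `C` such that for all `m ≥ m₀`, every cycle with `p ≥ 2` elements
and every set `P` of at most `p ^ c` pairs of integers with first coordinates of size at most
`p ^ d`, at most `C p / log p` elements of the cycle are special for `P` and `m`.

(3) Let `r (c + d) < 1`. There is `C` such that for all `m ≥ m₀`, every cycle with `p ≥ 2` elements and every set `Q`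
of at most `p ^ c` integers, at most `C p / log p` elements of the cycle are at distance at most `p ^ d`
from an odd number `s a ^ m`, `s ∈ Q`.

(4) Let `r c < 1`. Only finitely many cycles are such that for some `m ≥ m₀` and some set `Q` of at most `p ^ c`
integers (`p` is the length of the cycle) all odd elements are of the form `s a ^ m`, `s ∈ Q`. For `m = 2` this
says that only finitely many cycles have odd elements with at most `p ^ c` different squarefree parts. -/
theorem result (r m₀ : ℕ) (hr : (m₀ = 2 ∧ r = 3) ∨ (m₀ = 3 ∧ r = 2)) :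
    (∀ c d ε : ℝ, 0 ≤ c → 0 ≤ d → 0 < ε → r * c + ε < 1 → c + (r - 1 : ℕ) * d < 1 →
      ∃ C : ℝ, ∀ m : ℕ, m₀ ≤ m → ∀ (P : Finset (ℤ × ℤ)) (x : ℤ) (n : ℕ), 2 ≤ n →
        (P.card : ℝ) ≤ (n : ℝ) ^ c → (∀ q ∈ P, |(q.1 : ℝ)| ≤ (n : ℝ) ^ d) →
        |(x : ℝ)| ≤ Real.exp (Real.exp ((n : ℝ) ^ ε)) →
        Set.InjOn (fun i => T^[i] x) (range n : Finset ℕ) →
        ∀ F : Finset ℕ, F ⊆ range n → (∀ t ∈ F, Special P m (T^[t] x)) →
          (F.card : ℝ) ≤ C * (n / Real.log n)) ∧
    (∀ c d : ℝ, 0 ≤ c → 0 ≤ d → r * c < 1 → c + (r - 1 : ℕ) * d < 1 →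
      ∃ C : ℝ, ∀ m : ℕ, m₀ ≤ m → ∀ Z : Finset ℤ, IsCycle Z → 2 ≤ Z.card →
        ∀ P : Finset (ℤ × ℤ), (P.card : ℝ) ≤ (Z.card : ℝ) ^ c →
        (∀ q ∈ P, |(q.1 : ℝ)| ≤ (Z.card : ℝ) ^ d) →
        ∀ F : Finset ℤ, F ⊆ Z → (∀ y ∈ F, Special P m y) →
          (F.card : ℝ) ≤ C * (Z.card / Real.log Z.card)) ∧
    (∀ c d : ℝ, 0 ≤ c → 0 ≤ d → r * (c + d) < 1 →
      ∃ C : ℝ, ∀ m : ℕ, m₀ ≤ m → ∀ Z : Finset ℤ, IsCycle Z → 2 ≤ Z.card →
        ∀ Q : Finset ℤ, (Q.card : ℝ) ≤ (Z.card : ℝ) ^ c →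
        ∀ F : Finset ℤ, F ⊆ Z → (∀ y ∈ F, ∃ s ∈ Q, ∃ a : ℤ, (s * a ^ m) % 2 = 1 ∧
            |(y : ℝ) - s * a ^ m| ≤ (Z.card : ℝ) ^ d) →
          (F.card : ℝ) ≤ C * (Z.card / Real.log Z.card)) ∧
    (∀ c : ℝ, r * c < 1 →
      {Z : Finset ℤ | IsCycle Z ∧ ∃ m : ℕ, m₀ ≤ m ∧ ∃ Q : Finset ℤ,
        (Q.card : ℝ) ≤ (Z.card : ℝ) ^ c ∧
        ∀ y ∈ Z, y % 2 = 1 → ∃ s ∈ Q, ∃ a : ℤ, y = s * a ^ m}.Finite) := by
  have hr23 : r = 2 ∨ r = 3 := by omega
  refine ⟨?_, ?_, ?_, ?_⟩
  · intro c d ε hc0 hd0 hε h1 h2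
    obtain ⟨C, _, hC⟩ := Pool.Agent.V5helper5.SQ2.asym_all r hr23 hc0 hd0 hε h1 h2
    exact ⟨C, fun m hm => hC m (admissible hr hm).2.1 (admissible hr hm).2.2⟩
  · intro c d hc0 hd0 h1 h2
    obtain ⟨C, _, hC⟩ := Pool.Agent.V5helper5.SQ2.cyc_all r hr23 hc0 hd0 h1 h2
    exact ⟨C, fun m hm => hC m (admissible hr hm).2.1 (admissible hr hm).2.2⟩
  · intro c d hc0 hd0 h1
    obtain ⟨C, _, hC⟩ := Pool.Agent.V5helper5.SQ2.near_all r hr23 hc0 hd0 h1
    exact ⟨C, fun m hm => hC m (admissible hr hm).2.1 (admissible hr hm).2.2⟩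
  · intro c hc
    refine (Pool.Agent.V5helper5.SQ2.finite_all r hr23 hc).subset ?_
    rintro Z ⟨hZ, m, hm, Q, hQ, h⟩
    exact ⟨hZ, m, ⟨(admissible hr hm).2.1, (admissible hr hm).2.2⟩, Q, hQ, h⟩

end Pool.Agent.Results.MP_edb5be_nt.SquarefreeParts
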